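import Pool.Agent.V11251.BF

/-!
# Henson graphs
-/

set_option autoImplicit false
set_option linter.unusedVariables false
set_option linter.unusedSectionVars false

namespace Pool.Agent.V11251.HG

open Classical in
/-- lower neighbourhoods -/
noncomputable def low (t : ℕ → Finset ℕ) (n : ℕ) : ℕ → Finset ℕ :=
  WellFounded.fix (r := fun a b : ℕ => a < b) (C := fun _ => Finset ℕ) wellFounded_lt (fun m ih =>
    if t m ⊆ Finset.range m ∧ ∀ K ⊆ t m, K.card + 1 = n → ∃ x ∈ K, ∃ y ∈ K, x < y ∧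
      x ∉ (if hy : y < m then ih y hy else ∅) then t m else ∅)

open Classical in
theorem low_eq (t : ℕ → Finset ℕ) (n m : ℕ) : low t n m =
    if t m ⊆ Finset.range m ∧ ∀ K ⊆ t m, K.card + 1 = n → ∃ x ∈ K, ∃ y ∈ K, x < y ∧
      x ∉ (if y < m then low t n y else ∅) then t m else ∅ := by
  have := WellFounded.fix_eq (r := fun a b : ℕ => a < b) (C := fun _ => Finset ℕ) wellFounded_lt
    (fun m ih =>
      if t m ⊆ Finset.range m ∧ ∀ K ⊆ t m, K.card + 1 = n → ∃ x ∈ K, ∃ y ∈ K, x < y ∧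
        x ∉ (if hy : y < m then ih y hy else ∅) then t m else ∅) m
  exact this

theorem low_sub (t : ℕ → Finset ℕ) (n m : ℕ) : low t n m ⊆ Finset.range m := by
  classical
  rw [low_eq]
  split_ifs with h
  · exact h.1
  · exact Finset.empty_subset _

/-- the graph -/
def graph (t : ℕ → Finset ℕ) (n : ℕ) : SimpleGraph ℕ where
  Adj x y := x ∈ low t n y ∨ y ∈ low t n x
  symm := ⟨fun x y h => h.symm⟩
  loopless := ⟨fun x h => by
    have : x ∈ low t n x := by tauto
    exact absurd (Finset.mem_range.1 (low_sub t n x this)) (lt_irrefl _)⟩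

theorem adj_iff (t : ℕ → Finset ℕ) (n : ℕ) {x y : ℕ} (h : x < y) :
    (graph t n).Adj x y ↔ x ∈ low t n y := by
  constructor
  · rintro (h1 | h1)
    · exact h1
    · exact absurd (Finset.mem_range.1 (low_sub t n x h1)) (not_lt.2 h.le)
  · exact fun h1 => Or.inl h1

theorem cliqueFree (t : ℕ → Finset ℕ) (n : ℕ) (hn : 3 ≤ n) : (graph t n).CliqueFree n := by
  classical
  intro s hs
  have hcard := hs.card_eq
  have hcl := hs.isClique
  have hne : s.Nonempty := by
    rw [← Finset.card_pos]; omega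
  set m := s.max' hne with hm
  have hmem : m ∈ s := s.max'_mem hne
  have hK : (s.erase m).card + 1 = n := by rw [Finset.card_erase_of_mem hmem]; omega
  have hlt : ∀ x ∈ s.erase m, x < m := by
    intro x hx
    rw [Finset.mem_erase] at hx
    exact lt_of_le_of_ne (s.le_max' x hx.2) hx.1
  have hsub : s.erase m ⊆ low t n m := by
    intro x hx
    have h1 := hlt x hx
    rw [← adj_iff t n h1]
    exact hcl (Finset.mem_of_mem_erase hx) hmem h1.ne
  have hne2 : (s.erase m).Nonempty := by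
    rw [← Finset.card_pos]; omega
  rw [low_eq] at hsub
  split_ifs at hsub with h
  · obtain ⟨x, hx, y, hy, hxy, hxl⟩ := h.2 _ hsub hK
    rw [if_pos (hlt y hy), ← adj_iff t n hxy] at hxl
    exact hxl (hcl (Finset.mem_of_mem_erase hx) (Finset.mem_of_mem_erase hy) hxy.ne)
  · obtain ⟨x, hx⟩ := hne2
    exact absurd (hsub hx) (Finset.notMem_empty x)

/-- extension property -/
def EP {V : Type} (n : ℕ) (G : SimpleGraph V) : Prop :=
  ∀ A B : Finset V, (∀ K ⊆ A, K.card + 1 = n → ¬ G.IsClique (K : Set V)) → Disjoint A B →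
    ∃ v, (∀ a ∈ A, G.Adj v a) ∧ (∀ b ∈ B, ¬ G.Adj v b) ∧ v ∉ A ∧ v ∉ B

theorem ep (t : ℕ → Finset ℕ) (n : ℕ) (ht : ∀ (A : Finset ℕ) (N : ℕ), ∃ m, N ≤ m ∧ t m = A) :
    EP n (graph t n) := by
  classical
  intro A B hA hAB
  obtain ⟨m, hm, htm⟩ := ht A ((A ∪ B).sup id + 1)
  have hlt : ∀ x ∈ A ∪ B, x < m := by
    intro x hx
    have := Finset.le_sup (f := id) hx
    simp only [id] at this
    omega
  have hltA : ∀ x ∈ A, x < m := fun x hx => hlt x (Finset.mem_union_left _ hx)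
  have hltB : ∀ x ∈ B, x < m := fun x hx => hlt x (Finset.mem_union_right _ hx)
  have hlow : low t n m = A := by
    rw [low_eq, htm, if_pos]
    refine ⟨fun x hx => Finset.mem_range.2 (hltA x hx), fun K hK hc => ?_⟩
    have h1 := hA K hK hc
    unfold SimpleGraph.IsClique Set.Pairwise at h1
    push Not at h1
    obtain ⟨x, hx, y, hy, hne, hxy⟩ := h1
    rcases lt_or_gt_of_ne hne with h | h
    · refine ⟨x, hx, y, hy, h, ?_⟩
      rw [if_pos (hltA y (hK hy)), ← adj_iff t n h]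
      exact hxy
    · refine ⟨y, hy, x, hx, h, ?_⟩
      rw [if_pos (hltA x (hK hx)), ← adj_iff t n h]
      exact fun h2 => hxy h2.symm
  refine ⟨m, fun a ha => ?_, fun b hb hadj => ?_, fun h => ?_, fun h => ?_⟩
  · apply SimpleGraph.Adj.symm
    rw [adj_iff t n (hltA a ha), hlow]
    exact ha
  · have := hadj.symm
    rw [adj_iff t n (hltB b hb), hlow] at this
    exact Finset.disjoint_left.1 hAB this hb
  · exact lt_irrefl _ (hltA m h)
  · exact lt_irrefl _ (hltB m h)

theorem exists_task : ∃ t : ℕ → Finset ℕ, ∀ (A : Finset ℕ) (N : ℕ), ∃ m, N ≤ m ∧ t m = A := by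
  refine ⟨fun m => (Encodable.decode (α := Finset ℕ) (Nat.unpair m).2).getD ∅, fun A N =>
    ⟨Nat.pair N (Encodable.encode A), Nat.left_le_pair _ _, by simp⟩⟩

section ext

variable {W V : Type} (H : SimpleGraph W) (G : SimpleGraph V)

/-- finite partial isomorphisms -/
def PI (f : Finset (W × V)) : Prop :=
  ∀ p ∈ f, ∀ q ∈ f, (p.1 = q.1 ↔ p.2 = q.2) ∧ (H.Adj p.1 q.1 ↔ G.Adj p.2 q.2)

variable {H G}

theorem PI.extend [DecidableEq W] [DecidableEq V] {n : ℕ} (hH : H.CliqueFree n) (hG : EP n G)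
    {f : Finset (W × V)} (hf : PI H G f) (a : W) : ∃ b, PI H G (insert (a, b) f) := by
  classical
  by_cases h : ∃ b, (a, b) ∈ f
  · obtain ⟨b, hb⟩ := h
    exact ⟨b, by rw [Finset.insert_eq_of_mem hb]; exact hf⟩
  let A : Finset V := (f.filter (fun p => H.Adj a p.1)).image Prod.snd
  let B : Finset V := (f.filter (fun p => ¬ H.Adj a p.1)).image Prod.snd
  have hA : ∀ x, x ∈ A ↔ ∃ p ∈ f, H.Adj a p.1 ∧ p.2 = x := by
    intro x
    simp only [A, Finset.mem_image, Finset.mem_filter, and_assoc]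
  have hB : ∀ x, x ∈ B ↔ ∃ p ∈ f, ¬ H.Adj a p.1 ∧ p.2 = x := by
    intro x
    simp only [B, Finset.mem_image, Finset.mem_filter, and_assoc]
  obtain ⟨b, hb1, hb2, hb3, hb4⟩ := hG A B (by
    intro K hKA hKc hKcl
    have hch : ∀ k : K, ∃ p ∈ f, H.Adj a p.1 ∧ p.2 = k := fun k => (hA _).1 (hKA k.2)
    choose p hp1 hp2 hp3 using hch
    let K' : Finset W := Finset.univ.image (fun k : K => (p k).1)
    have hinj : Function.Injective (fun k : K => (p k).1) := by
      intro k k' hkk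
      have := (hf _ (hp1 k) _ (hp1 k')).1.1 hkk
      rw [hp3, hp3] at this
      exact Subtype.ext this
    have hcard : K'.card = K.card := by
      rw [Finset.card_image_of_injective _ hinj, Finset.card_univ, Fintype.card_coe]
    have haK' : a ∉ K' := by
      intro ha
      obtain ⟨k, _, hk⟩ := Finset.mem_image.1 ha
      have := hp2 k
      rw [hk] at this
      exact H.loopless.irrefl a this
    apply hH (insert a K')
    rw [SimpleGraph.isNClique_iff, Finset.card_insert_of_notMem haK', hcard]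
    refine ⟨?_, hKc⟩
    rw [Finset.coe_insert, SimpleGraph.isClique_insert]
    refine ⟨?_, ?_⟩
    · intro x hx y hy hxy
      obtain ⟨k, _, rfl⟩ := Finset.mem_image.1 hx
      obtain ⟨k', _, rfl⟩ := Finset.mem_image.1 hy
      rw [(hf _ (hp1 k) _ (hp1 k')).2, hp3, hp3]
      refine hKcl k.2 k'.2 ?_
      intro hkk
      exact hxy (by rw [Subtype.ext hkk])
    · intro x hx _
      obtain ⟨k, _, rfl⟩ := Finset.mem_image.1 hx
      exact hp2 k) (by
    rw [Finset.disjoint_left]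
    intro x hxA hxB
    obtain ⟨p, hp, hpa, hpx⟩ := (hA x).1 hxA
    obtain ⟨q, hq, hqa, hqx⟩ := (hB x).1 hxB
    have := (hf p hp q hq).1.2 (hpx.trans hqx.symm)
    rw [this] at hpa
    exact hqa hpa)
  refine ⟨b, ?_⟩
  have key : ∀ p ∈ f, (a = p.1 ↔ b = p.2) ∧ (H.Adj a p.1 ↔ G.Adj b p.2) := by
    intro p hp
    have hne1 : a ≠ p.1 := fun h0 => h ⟨p.2, by rw [h0]; exact hp⟩
    have hne2 : b ≠ p.2 := by
      intro h0
      by_cases hadj : H.Adj a p.1
      · exact hb3 ((hA b).2 ⟨p, hp, hadj, h0.symm⟩)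
      · exact hb4 ((hB b).2 ⟨p, hp, hadj, h0.symm⟩)
    refine ⟨⟨fun h0 => absurd h0 hne1, fun h0 => absurd h0 hne2⟩, fun hadj => ?_, fun hadj => ?_⟩
    · exact hb1 _ ((hA _).2 ⟨p, hp, hadj, rfl⟩)
    · by_contra hcon
      exact hb2 _ ((hB _).2 ⟨p, hp, hcon, rfl⟩) hadj
  intro p hp q hq
  rw [Finset.mem_insert] at hp hq
  rcases hp with rfl | hp <;> rcases hq with rfl | hq
  · exact ⟨⟨fun _ => rfl, fun _ => rfl⟩, ⟨fun h0 => absurd h0 (H.loopless.irrefl _),
      fun h0 => absurd h0 (G.loopless.irrefl _)⟩⟩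
  · exact key q hq
  · obtain ⟨h1, h2⟩ := key p hp
    refine ⟨⟨fun h0 => (h1.1 h0.symm).symm, fun h0 => (h1.2 h0.symm).symm⟩,
      ⟨fun h0 => (h2.1 h0.symm).symm, fun h0 => (h2.2 h0.symm).symm⟩⟩
  · exact hf p hp q hq

theorem PI.swap [DecidableEq W] [DecidableEq V] {f : Finset (W × V)} (hf : PI H G f) :
    PI G H (f.image Prod.swap) := by
  intro p hp q hq
  obtain ⟨p', hp', rfl⟩ := Finset.mem_image.1 hp
  obtain ⟨q', hq', rfl⟩ := Finset.mem_image.1 hq
  exact ⟨(hf p' hp' q' hq').1.symm, (hf p' hp' q' hq').2.symm⟩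

theorem PI.extend_right [DecidableEq W] [DecidableEq V] {n : ℕ} (hG : G.CliqueFree n) (hH : EP n H)
    {f : Finset (W × V)} (hf : PI H G f) (b : V) : ∃ a, PI H G (insert (a, b) f) := by
  obtain ⟨a, ha⟩ := PI.extend hG hH hf.swap b
  refine ⟨a, ?_⟩
  have := ha.swap
  rw [Finset.image_insert, Finset.image_image] at this
  simpa using this

theorem age [DecidableEq W] [DecidableEq V] [Finite W] {n : ℕ} (hH : H.CliqueFree n)
    (hG : EP n G) : Nonempty (H ↪g G) := by
  classical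
  have h1 : ∀ s : Finset W, ∃ f, PI H G f ∧ ∀ a ∈ s, ∃ b, (a, b) ∈ f := by
    intro s
    induction s using Finset.induction_on with
    | empty => exact ⟨∅, fun p hp => absurd hp (Finset.notMem_empty p),
        fun a ha => absurd ha (Finset.notMem_empty a)⟩
    | insert a s ha ih =>
      obtain ⟨f, hf, hs⟩ := ih
      obtain ⟨b, hb⟩ := hf.extend hH hG a
      refine ⟨_, hb, fun x hx => ?_⟩
      rw [Finset.mem_insert] at hx
      rcases hx with rfl | hx
      · exact ⟨b, Finset.mem_insert_self _ _⟩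
      · obtain ⟨y, hy⟩ := hs x hx
        exact ⟨y, Finset.mem_insert_of_mem hy⟩
  cases nonempty_fintype W
  obtain ⟨f, hf, hs⟩ := h1 Finset.univ
  choose e he using fun a => hs a (Finset.mem_univ a)
  exact ⟨⟨⟨e, fun a a' h => (hf _ (he a) _ (he a')).1.2 h⟩, fun {a a'} =>
    (hf _ (he a) _ (he a')).2.symm⟩⟩

theorem homogeneous [Countable V] {n : ℕ} (hfree : G.CliqueFree n) (hG : EP n G) (S : Set V)
    (hS : S.Finite) (g : G.induce S ↪g G) : ∃ φ : G ≃g G, ∀ s : S, φ s = g s := by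
  classical
  haveI : Fintype S := hS.fintype
  let f₀ : Finset (V × V) := Finset.univ.image (fun s : S => ((s : V), g s))
  have h0 : PI G G f₀ := by
    intro p hp q hq
    obtain ⟨s, _, rfl⟩ := Finset.mem_image.1 hp
    obtain ⟨s', _, rfl⟩ := Finset.mem_image.1 hq
    refine ⟨⟨fun h => ?_, fun h => ?_⟩, ?_⟩
    · have : s = s' := Subtype.ext h
      rw [this]
    · exact congrArg Subtype.val (g.injective h)
    · exact (g.map_adj_iff (v := s) (w := s')).symm
  obtain ⟨e, he1, he2⟩ := back_forth (PI G G) (fun f hf a => hf.extend hfree hG a)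
    (fun f hf b => hf.extend_right hfree hG b) (fun f hf p hp q hq => (hf p hp q hq).1) f₀ h0
  refine ⟨⟨e, fun {a a'} => ?_⟩, fun s => ?_⟩
  · obtain ⟨f, hf, hs⟩ := he2 {a, a'}
    exact (hf _ (hs a (by simp)) _ (hs a' (by simp))).2.symm
  · exact he1 _ (Finset.mem_image.2 ⟨s, Finset.mem_univ _, rfl⟩)

end ext

end Pool.Agent.V11251.HG
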